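import Pool.Agent.H98.TA.Win2

/-!
Modules DIAM, CONVW.
-/

set_option linter.unusedVariables false

namespace TA

section
variable {P' : Type} [Group P'] {len : P' → ℕ} {Pz R : Fin 3 → Subgroup P'} {ρ : ℕ}

theorem rprod_mem {W : Set P'} {N : Subgroup P'} {l : List ((Fin 3 × P') × P')}
    (h : Valid len Pz R W l) : rprod l ∈ nextN len Pz R W N := by
  unfold rprod
  apply Subgroup.list_prod_mem
  intro x hx
  rw [List.mem_map] at hx
  obtain ⟨a, ha, rfl⟩ := hx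
  exact Subgroup.subset_closure (Or.inr ⟨a.1, (h.1 a ha).1, (h.1 a ha).2.1⟩)

theorem isGate_tr {s : P'} {Y : Fin 3 × P'} {x q : P'} (h : IsGate len Pz Y x q) :
    IsGate len Pz (trR s Y) (s * x) (s * q) := by
  refine ⟨inR_tr.2 h.1, fun y hy => ?_⟩
  have h1 := h.2 _ (inR_tr'.1 hy)
  have h2 := (btw_smul (len := len) (s := s)).2 h1
  rwa [mul_inv_cancel_left] at h2

theorem diam_aux (S : SylGeom len Pz) (H : Rot len Pz R ρ) {W : Set P'} {N : Subgroup P'}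
    (M : Mill len Pz R W N) (k : ℕ) : ∀ l : List ((Fin 3 × P') × P'), l.length ≤ k →
    Valid len Pz R W l → ∀ Z Y' Y2 : Fin 3 × P',
    (∀ σ ∈ nextN len Pz R W N, ∀ x ∈ W, ¬ InR Pz Z (σ * x)) → Att len Pz W Y' →
    Att len Pz W Y2 → ∀ x y, InR Pz Z x → InR Pz Y' x → InR Pz Z y →
    InR Pz Y2 ((rprod l)⁻¹ * y) → len (x⁻¹ * y) ≤ 2 := by
  induction k with
  | zero =>
    intro l hl hv Z Y' Y2 hZ hY' hY2 x y hxZ hxY' hyZ hy2
    have hl0 : l = [] := List.length_eq_zero_iff.1 (by omega)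
    subst hl0
    simp only [rprod_nil, inv_one, one_mul] at hy2
    obtain ⟨w', hw', hw'Y⟩ := hY'.1
    obtain ⟨w'', hw'', hw''Y⟩ := hY2.1
    obtain ⟨g', hg'⟩ := S.gate Z w'
    obtain ⟨g'', hg''⟩ := S.gate Z w''
    have hW : ∀ u ∈ W, ¬ InR Pz Z u := by
      intro u hu
      have := hZ 1 (one_mem _) u hu
      simpa using this
    have a1 : len (x⁻¹ * g') ≤ 1 := by
      refine S.inter Z Y' (fun h => hW w' hw' (h.symm.inR hw'Y)) x g' hxZ hg'.1 hxY' ?_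
      exact S.convex Y' w' g' x hw'Y hxY' (hg'.2 x hxZ)
    have a2 : len (g''⁻¹ * y) ≤ 1 := by
      refine S.inter Z Y2 (fun h => hW w'' hw'' (h.symm.inR hw''Y)) g'' y hg''.1 hyZ ?_ hy2
      exact S.convex Y2 w'' g'' y hw''Y hy2 (hg''.2 y hyZ)
    by_cases he : g' = g''
    · subst he
      have := wi_tri S x g' y
      omega
    · exfalso
      have hp := S.gate_path Z w' w'' g' g'' hg' hg'' he
      refine hW g' (M.conv w' hw' w'' hw'' g' ?_) hg'.1
      have t1 := wi_tri S w' g' w''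
      have t2 := wi_tri S g' g'' w''
      unfold Btw
      omega
  | succ k ih =>
    intro l hl hv Z Y' Y2 hZ hY' hY2 x y hxZ hxY' hyZ hy2
    by_cases hk : l.length ≤ k
    · exact ih l hk hv Z Y' Y2 hZ hY' hY2 x y hxZ hxY' hyZ hy2
    -- head
    obtain ⟨a, l', rfl⟩ : ∃ a l', l = a :: l' := by
      cases l with
      | nil => simp at hk
      | cons a l' => exact ⟨a, l', rfl⟩
    by_cases hs : SameR Pz Y' a.1
    · obtain ⟨hA, hr, hr1⟩ := hv.1 a (by simp)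
      have hv' : Valid len Pz R W l' := hv.sub' (List.suffix_cons a l').isInfix
      have hl' : l'.length ≤ k := by simp at hl; omega
      have hrN : a.2 ∈ nextN len Pz R W N := Subgroup.subset_closure (Or.inr ⟨a.1, hA, hr⟩)
      have := ih l' hl' hv' (trR a.2⁻¹ Z) Y' Y2 (by
        intro σ hσ u hu hin
        rw [inR_tr', inv_inv, ← mul_assoc] at hin
        exact hZ _ (mul_mem hrN hσ) u hu hin) hY' hY2 (a.2⁻¹ * x) (a.2⁻¹ * y)
        (inR_tr.2 hxZ) (hs.symm.inR (memRY_inR H (memRY_inv hr) (hs.inR hxY')))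
        (inR_tr.2 hyZ) (by
          rw [rprod_cons, mul_inv_rev, mul_assoc] at hy2
          exact hy2)
      rwa [wi_smul] at this
    rcases List.eq_nil_or_concat (a :: l') with h0 | ⟨l0, b, hb⟩
    · simp at h0
    rw [List.concat_eq_append] at hb
    obtain ⟨Yk, r⟩ := b
    have hhead : (l0 ++ [(Yk, r)]).head? = some a := by rw [← hb]; rfl
    rw [hb] at hl hv hy2 hk
    obtain ⟨hA, hr, hr1⟩ := hv.1 (Yk, r) (by simp)
    simp only at hA hr hr1
    have hv' : Valid len Pz R W l0 := hv.sub' (List.prefix_append _ _).isInfix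
    have hl' : l0.length ≤ k := by simp at hl; omega
    have hy3 : (rprod l0)⁻¹ * y = r * ((rprod (l0 ++ [(Yk, r)]))⁻¹ * y) := by
      rw [rprod_append, rprod_single]
      simp only; group
    by_cases hs2 : SameR Pz Y2 Yk
    · refine ih l0 hl' hv' Z Y' Y2 hZ hY' hY2 x y hxZ hxY' hyZ ?_
      rw [hy3]
      exact hs2.symm.inR (memRY_inR H hr (hs2.inR hy2))
    exfalso
    obtain ⟨g1, hg1⟩ := S.gate Yk ((rprod l0)⁻¹ * x)
    obtain ⟨i, hi, hiY, hd⟩ := gk P' len Pz R ρ S H W M.conv l0 Yk r hv x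
      (Or.inr ⟨Y', hxY', hY'.1, by
        intro c hc
        rw [hhead] at hc
        simp only [Option.mem_def, Option.some.injEq] at hc
        rw [← hc]; exact hs⟩) g1 hg1
    obtain ⟨g2, hg2⟩ := S.gate Yk ((rprod (l0 ++ [(Yk, r)]))⁻¹ * y)
    obtain ⟨i', hi', hi'Y, hd'⟩ := (base P' len Pz S W M.conv Yk hA.1 _ g2 hg2).2 Y2 hs2
      hY2.1 hy2
    have hrg2 := isGate_smul H hr hg2
    rw [← hy3] at hrg2
    have e1 := rot_big S H hr hr1 hi'Y
    have e2 := hA.2 i' hi' i hi hi'Y hiY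
    have e3 := wi_tri S i' i (r * i')
    have e4 := wi_tri S i g1 (r * i')
    have e5 := wi_tri S g1 (r * g2) (r * i')
    have e6 := H.eight
    have e7 := wi_comm S g1 i
    rw [wi_smul] at e5
    have hne : g1 ≠ r * g2 := by
      intro h
      rw [← h, wi_self S] at e5
      omega
    have hp := S.gate_path Yk _ _ _ _ hg1 hrg2 hne
    have t1 := wi_tri S ((rprod l0)⁻¹ * x) g1 ((rprod l0)⁻¹ * y)
    have t2 := wi_tri S g1 (r * g2) ((rprod l0)⁻¹ * y)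
    have t3 := wi_tri S ((rprod l0)⁻¹ * x) (r * g2) ((rprod l0)⁻¹ * y)
    have t4 := wi_tri S ((rprod l0)⁻¹ * x) g1 (r * g2)
    have c1 : InR Pz (trR (rprod l0)⁻¹ Z) g1 := by
      refine S.convex _ _ g1 _ (inR_tr.2 hxZ) (inR_tr.2 hyZ) ?_
      unfold Btw; omega
    have c2 : InR Pz (trR (rprod l0)⁻¹ Z) (r * g2) := by
      refine S.convex _ _ (r * g2) _ (inR_tr.2 hxZ) (inR_tr.2 hyZ) ?_
      unfold Btw; omega
    have hsame : SameR Pz Yk (trR (rprod l0)⁻¹ Z) := by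
      by_contra hns
      have := S.inter _ _ hns g1 (r * g2) hg1.1 hrg2.1 c1 c2
      omega
    have hiZ := hsame.inR hiY
    rw [inR_tr', inv_inv] at hiZ
    exact hZ _ (rprod_mem hv') i hi hiZ

theorem diam : S_DIAM := by
  intro P' _ len Pz R ρ S H W N M Y hY p hp q hq hpY hqY
  obtain ⟨σ, hσ, hp⟩ := hp
  obtain ⟨τ, hτ, hq⟩ := hq
  rcases hp with hp | ⟨Y', hY', hp⟩
  · exact absurd (by rwa [mul_inv_cancel_left]) (hY σ hσ _ hp)
  rcases hq with hq | ⟨Y2, hY2, hq⟩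
  · exact absurd (by rwa [mul_inv_cancel_left]) (hY τ hτ _ hq)
  obtain ⟨l, hl, n, hn, hln⟩ := repn P' len Pz R ρ S H W N M (σ⁻¹ * τ)
    (mul_mem (inv_mem hσ) hτ)
  have := diam_aux S H M l.length l le_rfl hl (trR σ⁻¹ Y) Y' (trR n Y2) (by
    intro s hs u hu hin
    rw [inR_tr', inv_inv, ← mul_assoc] at hin
    exact hY _ (mul_mem hσ hs) u hu hin) hY' (att_tr S M hn hY2) (σ⁻¹ * p) (σ⁻¹ * q)
    (inR_tr.2 hpY) hp (inR_tr.2 hqY) (by
      have e : (rprod l)⁻¹ * (σ⁻¹ * q) = n * (τ⁻¹ * q) := by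
        have : rprod l = σ⁻¹ * τ * n⁻¹ := by rw [hln]; group
        rw [this]; group
      rw [e]
      exact inR_tr.2 hq)
  rwa [wi_smul] at this

/-- the set `W` together with the attached residues -/
def cvU (len : P' → ℕ) (Pz : Fin 3 → Subgroup P') (W : Set P') : Set P' :=
  {x | x ∈ W ∨ ∃ Y, Att len Pz W Y ∧ InR Pz Y x}

theorem cv_base (S : SylGeom len Pz) {W : Set P'} {x : P'} (hx : x ∈ cvU len Pz W) :
    ∃ w ∈ W, ∀ m, Btw len x m w → m ∈ cvU len Pz W := by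
  rcases hx with hx | ⟨Y, hY, hx⟩
  · refine ⟨x, hx, fun m hm => ?_⟩
    unfold Btw at hm
    rw [wi_self S] at hm
    have h0 : len (x⁻¹ * m) = 0 := by omega
    rw [S.eq_one] at h0
    have : m = x := by
      rw [inv_mul_eq_one] at h0
      exact h0.symm
    rw [this]
    exact Or.inl hx
  · obtain ⟨w, hw, hwY⟩ := hY.1
    exact ⟨w, hw, fun m hm => Or.inr ⟨Y, hY, S.convex Y x m w hx hwY hm⟩⟩

theorem cv_conv (S : SylGeom len Pz) {W : Set P'} (hW : Conv len W) {x y m : P'}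
    (hx : x ∈ cvU len Pz W) (hy : y ∈ cvU len Pz W) (hm : Btw len x m y) :
    m ∈ cvU len Pz W := by
  obtain ⟨w', hw', h'⟩ := cv_base S hx
  obtain ⟨w'', hw'', h''⟩ := cv_base S hy
  rcases S.split x m y w' hm with h | h
  · exact h' m h
  rcases S.split w' m y w'' h with h2 | h2
  · exact Or.inl (hW w' hw' w'' hw'' m h2)
  · exact h'' m (h2.symm' S)

/-- `U` meets its translates by the generators -/
theorem cv_meet (S : SylGeom len Pz) (H : Rot len Pz R ρ) {W : Set P'} {N : Subgroup P'}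
    (M : Mill len Pz R W N) {σ : P'}
    (hσ : σ ∈ (N : Set P') ∪ {r | ∃ Y, Att len Pz W Y ∧ MemRY R Y r}) :
    ∃ p, p ∈ cvU len Pz W ∧ σ⁻¹ * p ∈ cvU len Pz W := by
  rcases hσ with hσ | ⟨Y, hY, hr⟩
  · exact ⟨1, Or.inl M.one, Or.inl (M.inv _ (inv_mem hσ) 1 M.one)⟩
  · obtain ⟨w, hw, hwY⟩ := hY.1
    exact ⟨w, Or.inl hw, Or.inr ⟨Y, hY, memRY_inR H (memRY_inv hr) hwY⟩⟩

theorem cv_meet' (S : SylGeom len Pz) (H : Rot len Pz R ρ) {W : Set P'} {N : Subgroup P'}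
    (M : Mill len Pz R W N) {σ : P'}
    (hσ : σ ∈ (N : Set P') ∪ {r | ∃ Y, Att len Pz W Y ∧ MemRY R Y r}) :
    ∃ p, p ∈ cvU len Pz W ∧ σ * p ∈ cvU len Pz W := by
  obtain ⟨p, hp, hp'⟩ := cv_meet S H M hσ
  exact ⟨σ⁻¹ * p, hp', by rwa [mul_inv_cancel_left]⟩

theorem nextW_eq {W : Set P'} {N : Subgroup P'} {x : P'} : x ∈ nextW len Pz R W N ↔
    ∃ σ ∈ nextN len Pz R W N, σ⁻¹ * x ∈ cvU len Pz W := Iff.rfl

theorem nextW_smul {W : Set P'} {N : Subgroup P'} {σ x : P'} (hσ : σ ∈ nextN len Pz R W N)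
    (hx : x ∈ nextW len Pz R W N) : σ * x ∈ nextW len Pz R W N := by
  obtain ⟨τ, hτ, h⟩ := nextW_eq.1 hx
  refine nextW_eq.2 ⟨σ * τ, mul_mem hσ hτ, ?_⟩
  have e : (σ * τ)⁻¹ * (σ * x) = τ⁻¹ * x := by group
  rwa [e]

theorem cv_path (S : SylGeom len Pz) (H : Rot len Pz R ρ) {W : Set P'} {N : Subgroup P'}
    (M : Mill len Pz R W N) {σ : P'} (hσ : σ ∈ nextN len Pz R W N) :
    ∀ x y m, x ∈ cvU len Pz W → σ⁻¹ * y ∈ cvU len Pz W → Btw len x m y →
    m ∈ nextW len Pz R W N := by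
  have key : ∀ (s : P'), s ∈ nextN len Pz R W N → (∃ p, p ∈ cvU len Pz W ∧
      s⁻¹ * p ∈ cvU len Pz W) → ∀ t : P', (∀ x y m, x ∈ cvU len Pz W →
      t⁻¹ * y ∈ cvU len Pz W → Btw len x m y → m ∈ nextW len Pz R W N) →
      ∀ x y m, x ∈ cvU len Pz W → (s * t)⁻¹ * y ∈ cvU len Pz W → Btw len x m y →
      m ∈ nextW len Pz R W N := by
    rintro s hs ⟨p, hp, hp'⟩ t ih x y m hx hy hm
    rcases S.split x m y p hm with h | h
    · exact nextW_eq.2 ⟨1, one_mem _, by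
        rw [inv_one, one_mul]
        exact cv_conv S M.conv hx hp h⟩
    · have h2 := (btw_smul (len := len) (s := s⁻¹)).2 h
      have h3 := ih (s⁻¹ * p) (s⁻¹ * y) (s⁻¹ * m) hp' (by
        have e : t⁻¹ * (s⁻¹ * y) = (s * t)⁻¹ * y := by group
        rwa [e]) h2
      have h4 := nextW_smul hs h3
      rwa [mul_inv_cancel_left] at h4
  unfold nextN at hσ
  induction hσ using Subgroup.closure_induction_left with
  | one =>
    intro x y m hx hy hm
    rw [inv_one, one_mul] at hy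
    exact nextW_eq.2 ⟨1, one_mem _, by
      rw [inv_one, one_mul]
      exact cv_conv S M.conv hx hy hm⟩
  | mul_left s hs t ht ih =>
    exact key s (Subgroup.subset_closure hs) (cv_meet S H M hs) t ih
  | inv_mul_cancel s hs t ht ih =>
    refine key s⁻¹ (inv_mem (Subgroup.subset_closure hs)) ?_ t ih
    obtain ⟨p, hp, hp'⟩ := cv_meet' S H M hs
    exact ⟨p, hp, by rwa [inv_inv]⟩

theorem convw : S_CONVW := by
  intro P' _ len Pz R ρ S H W N M x hx y hy m hm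
  obtain ⟨σ, hσ, hx⟩ := nextW_eq.1 hx
  obtain ⟨τ, hτ, hy⟩ := nextW_eq.1 hy
  have h1 := (btw_smul (len := len) (s := σ⁻¹)).2 hm
  have h2 := cv_path S H M (σ := σ⁻¹ * τ) (mul_mem (inv_mem hσ) hτ) _ _ _ hx (by
    have e : (σ⁻¹ * τ)⁻¹ * (σ⁻¹ * y) = τ⁻¹ * y := by group
    rwa [e]) h1
  have h3 := nextW_smul hσ h2
  rwa [mul_inv_cancel_left] at h3

end

end TA
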