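import Pool.Agent.H14.TA.Stmts

/-!
Elementary lemmas on the metric and the residues of a syllable geometry, and the modules
LOC, BASE, GK.
-/

set_option linter.unusedVariables false

namespace TA

section
variable {P' : Type} [Group P'] {len : P' → ℕ} {Pz R : Fin 3 → Subgroup P'} {ρ : ℕ}

theorem wi_comm (S : SylGeom len Pz) (x y : P') : len (x⁻¹ * y) = len (y⁻¹ * x) := by
  rw [← S.inv (x⁻¹ * y)]
  simp

theorem wi_tri (S : SylGeom len Pz) (x m y : P') :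
    len (x⁻¹ * y) ≤ len (x⁻¹ * m) + len (m⁻¹ * y) := by
  have := S.mul (x⁻¹ * m) (m⁻¹ * y)
  have e : x⁻¹ * m * (m⁻¹ * y) = x⁻¹ * y := by group
  rwa [e] at this

theorem wi_self (S : SylGeom len Pz) (x : P') : len (x⁻¹ * x) = 0 := by
  rw [S.eq_one]; simp

theorem wi_smul (s x y : P') : (s * x)⁻¹ * (s * y) = x⁻¹ * y := by group

theorem Btw.symm' (S : SylGeom len Pz) {x m y : P'} (h : Btw len x m y) : Btw len y m x := by
  unfold Btw at *
  rw [wi_comm S y m, wi_comm S m x, wi_comm S y x]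
  omega

theorem btw_smul {s x m y : P'} : Btw len (s * x) (s * m) (s * y) ↔ Btw len x m y := by
  unfold Btw
  rw [wi_smul, wi_smul, wi_smul]

theorem btw_chain (S : SylGeom len Pz) {x g h y : P'} (h1 : Btw len x h y)
    (h2 : Btw len x g h) : Btw len x g y ∧ Btw len g h y := by
  have t1 := wi_tri S x g y
  have t2 := wi_tri S g h y
  unfold Btw at *
  omega

/-- translate of a residue -/
def trR (s : P') (Y : Fin 3 × P') : Fin 3 × P' := (Y.1, s * Y.2)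

theorem inR_tr {s : P'} {Y : Fin 3 × P'} {x : P'} : InR Pz (trR s Y) (s * x) ↔ InR Pz Y x := by
  unfold InR trR
  have e : (s * Y.2)⁻¹ * (s * x) = Y.2⁻¹ * x := by group
  rw [e]

theorem inR_tr' {s : P'} {Y : Fin 3 × P'} {x : P'} : InR Pz (trR s Y) x ↔ InR Pz Y (s⁻¹ * x) := by
  unfold InR trR
  have e : (s * Y.2)⁻¹ * x = Y.2⁻¹ * (s⁻¹ * x) := by group
  rw [e]

theorem sameR_refl (Y : Fin 3 × P') : SameR Pz Y Y := by
  refine ⟨rfl, ?_⟩
  simp [one_mem]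

theorem SameR.symm {Y Y' : Fin 3 × P'} (h : SameR Pz Y Y') : SameR Pz Y' Y := by
  refine ⟨h.1.symm, ?_⟩
  rw [← h.1]
  have := inv_mem h.2
  simpa using this

theorem SameR.trans {Y Y' Y'' : Fin 3 × P'} (h : SameR Pz Y Y') (h' : SameR Pz Y' Y'') :
    SameR Pz Y Y'' := by
  refine ⟨h.1.trans h'.1, ?_⟩
  have h2 := h'.2
  rw [← h.1] at h2
  have := mul_mem h.2 h2
  have e : Y.2⁻¹ * Y'.2 * (Y'.2⁻¹ * Y''.2) = Y.2⁻¹ * Y''.2 := by group
  rwa [e] at this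

theorem SameR.inR {Y Y' : Fin 3 × P'} (h : SameR Pz Y Y') {x : P'} (hx : InR Pz Y x) :
    InR Pz Y' x := by
  have h2 := h.symm.2
  unfold InR at *
  rw [← h.1] at h2 ⊢
  have := mul_mem h2 hx
  have e : Y'.2⁻¹ * Y.2 * (Y.2⁻¹ * x) = Y'.2⁻¹ * x := by group
  rwa [e] at this

theorem SameR.inR_iff {Y Y' : Fin 3 × P'} (h : SameR Pz Y Y') {x : P'} :
    InR Pz Y x ↔ InR Pz Y' x := ⟨h.inR, h.symm.inR⟩

theorem sameR_tr {s : P'} {Y Y' : Fin 3 × P'} : SameR Pz (trR s Y) (trR s Y') ↔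
    SameR Pz Y Y' := by
  unfold SameR trR
  have e : (s * Y.2)⁻¹ * (s * Y'.2) = Y.2⁻¹ * Y'.2 := by group
  simp only [e]

theorem SameR.meets {W : Set P'} {Y Y' : Fin 3 × P'} (h : SameR Pz Y Y') (hm : Meets Pz W Y) :
    Meets Pz W Y' := by
  obtain ⟨x, hx, hY⟩ := hm
  exact ⟨x, hx, h.inR hY⟩

theorem SameR.att {W : Set P'} {Y Y' : Fin 3 × P'} (h : SameR Pz Y Y')
    (hm : Att len Pz W Y) : Att len Pz W Y' :=
  ⟨h.meets hm.1, fun x hx y hy hx' hy' => hm.2 x hx y hy (h.symm.inR hx') (h.symm.inR hy')⟩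

theorem inR_div {Y : Fin 3 × P'} {x y : P'} (hx : InR Pz Y x) (hy : InR Pz Y y) :
    x⁻¹ * y ∈ Pz Y.1 := by
  unfold InR at *
  have := mul_mem (inv_mem hx) hy
  have e : (Y.2⁻¹ * x)⁻¹ * (Y.2⁻¹ * y) = x⁻¹ * y := by group
  rwa [e] at this

/-- conjugating a rotation to a point of the residue -/
theorem memRY_conj (H : Rot len Pz R ρ) {Y : Fin 3 × P'} {r x : P'} (hr : MemRY R Y r)
    (hx : InR Pz Y x) : x⁻¹ * r * x ∈ R Y.1 := by
  have h1 := H.conj Y.1 (Y.2⁻¹ * x)⁻¹ _ (inv_mem hx) hr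
  have e : (Y.2⁻¹ * x)⁻¹ * (Y.2⁻¹ * r * Y.2) * (Y.2⁻¹ * x)⁻¹⁻¹ = x⁻¹ * r * x := by group
  rwa [e] at h1

theorem memRY_same (H : Rot len Pz R ρ) {Y Y' : Fin 3 × P'} {r : P'} (h : SameR Pz Y Y')
    (hr : MemRY R Y r) : MemRY R Y' r := by
  unfold MemRY
  have h2 : InR Pz Y Y'.2 := h.2
  have := memRY_conj H hr h2
  rwa [h.1] at this

/-- a rotation preserves its residue -/
theorem memRY_inR (H : Rot len Pz R ρ) {Y : Fin 3 × P'} {r x : P'} (hr : MemRY R Y r)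
    (hx : InR Pz Y x) : InR Pz Y (r * x) := by
  unfold InR at *
  have := mul_mem (H.le _ hr) hx
  have e : Y.2⁻¹ * r * Y.2 * (Y.2⁻¹ * x) = Y.2⁻¹ * (r * x) := by group
  rwa [e] at this

theorem memRY_inv {Y : Fin 3 × P'} {r : P'} (hr : MemRY R Y r) : MemRY R Y r⁻¹ := by
  unfold MemRY at *
  have := inv_mem hr
  have e : (Y.2⁻¹ * r * Y.2)⁻¹ = Y.2⁻¹ * r⁻¹ * Y.2 := by group
  rwa [e] at this

theorem memRY_mul {Y : Fin 3 × P'} {r s : P'} (hr : MemRY R Y r) (hs : MemRY R Y s) :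
    MemRY R Y (r * s) := by
  unfold MemRY at *
  have := mul_mem hr hs
  have e : Y.2⁻¹ * r * Y.2 * (Y.2⁻¹ * s * Y.2) = Y.2⁻¹ * (r * s) * Y.2 := by group
  rwa [e] at this

theorem memRY_tr {Y : Fin 3 × P'} {r s : P'} (hr : MemRY R Y r) :
    MemRY R (trR s Y) (s * r * s⁻¹) := by
  unfold MemRY trR at *
  have e : (s * Y.2)⁻¹ * (s * r * s⁻¹) * (s * Y.2) = Y.2⁻¹ * r * Y.2 := by group
  simp only [e]
  exact hr

/-- a nontrivial rotation moves the points of its residue by at least `ρ` -/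
theorem rot_big (S : SylGeom len Pz) (H : Rot len Pz R ρ) {Y : Fin 3 × P'} {r x : P'}
    (hr : MemRY R Y r) (h1 : r ≠ 1) (hx : InR Pz Y x) : ρ ≤ len (x⁻¹ * (r * x)) := by
  have h2 := memRY_conj H hr hx
  have h3 := H.big _ _ h2 (by
    intro h
    apply h1
    have : r = x * (x⁻¹ * r * x) * x⁻¹ := by group
    rw [this, h]; simp)
  rwa [mul_assoc] at h3

theorem isGate_smul (H : Rot len Pz R ρ) {Y : Fin 3 × P'} {r x q : P'} (hr : MemRY R Y r)
    (hq : IsGate len Pz Y x q) : IsGate len Pz Y (r * x) (r * q) := by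
  refine ⟨memRY_inR H hr hq.1, fun y hy => ?_⟩
  have h1 := hq.2 (r⁻¹ * y) (memRY_inR H (memRY_inv hr) hy)
  have h2 := (btw_smul (len := len) (s := r)).2 h1
  rwa [mul_inv_cancel_left] at h2

theorem att_big {W : Set P'} {Y : Fin 3 × P'} (hA : Att len Pz W Y)
    {i i' : P'} (hi : i ∈ W) (hi' : i' ∈ W) (h : InR Pz Y i) (h' : InR Pz Y i') :
    len (i⁻¹ * i') ≤ 2 := hA.2 i hi i' hi' h h'

/-- the residue of a gate of a point of `W` -/
theorem gate_mem {W : Set P'} (hW : Conv len W) {Y : Fin 3 × P'}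
    {y w0 h : P'} (hy : y ∈ W) (hw0 : w0 ∈ W) (hwY : InR Pz Y w0) (hg : IsGate len Pz Y y h) :
    h ∈ W := hW y hy w0 hw0 h (hg.2 w0 hwY)

theorem loc : S_LOC := by
  intro P' _ len Pz S W hW Y Y2 hne hY hY2 x g g2 hg hg2 hfar
  obtain ⟨y, hy, hyY2⟩ := hY2
  obtain ⟨w0, hw0, hw0Y⟩ := hY
  obtain ⟨h, hh⟩ := S.gate Y y
  have hhW : h ∈ W := gate_mem hW hy hw0 hw0Y hh
  have hd := hfar h hhW hh.1
  have hgh : g ≠ h := by
    rintro rfl
    rw [wi_self S] at hd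
    omega
  have hp := S.gate_path Y x y g h hg hh hgh
  have t1 := wi_tri S x g h
  have t2 := wi_tri S x h y
  have b1 : Btw len x h y := by unfold Btw; omega
  have b2 : Btw len x g h := by unfold Btw; omega
  rcases S.split x g2 y h (hg2.2 y hyY2) with hs | hs
  · -- Btw x g2 h
    have hhY2 : InR Pz Y2 h := S.convex Y2 g2 h y hg2.1 hyY2 (btw_chain S b1 hs).2
    refine ⟨h, hhW, hhY2, ?_⟩
    rcases S.split x g2 h g hs with hs2 | hs2
    · have b3 := (btw_chain S b2 hs2).2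
      have hgY2 : InR Pz Y2 g := S.convex Y2 g2 g h hg2.1 hhY2 b3
      have := S.inter Y Y2 hne g h hg.1 hh.1 hgY2 hhY2
      omega
    · have hg2Y : InR Pz Y g2 := S.convex Y g g2 h hg.1 hh.1 hs2
      exact S.inter Y Y2 hne g2 h hg2Y hh.1 hg2.1 hhY2
  · exact ⟨g2, hW h hhW y hy g2 hs, hg2.1, by rw [wi_self S]; omega⟩

theorem base : S_BASE := by
  intro P' _ len Pz S W hW Y2 hY2 x g2 hg2
  obtain ⟨y, hy, hyY2⟩ := hY2
  refine ⟨fun hx => hW x hx y hy g2 (hg2.2 y hyY2), ?_⟩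
  intro Y0 hne hY0 hx
  obtain ⟨w0, hw0, hw0Y⟩ := hY0
  obtain ⟨h, hh⟩ := S.gate Y0 y
  have hhW : h ∈ W := gate_mem hW hy hw0 hw0Y hh
  have b1 : Btw len x h y := (hh.2 x hx).symm' S
  rcases S.split x g2 y h (hg2.2 y hyY2) with hs | hs
  · have h1 : InR Pz Y0 g2 := S.convex Y0 x g2 h hx hh.1 hs
    have h2 : InR Pz Y2 h := S.convex Y2 g2 h y hg2.1 hyY2 (btw_chain S b1 hs).2
    exact ⟨h, hhW, h2, S.inter Y0 Y2 hne g2 h h1 hh.1 hg2.1 h2⟩
  · exact ⟨g2, hW h hhW y hy g2 hs, hg2.1, by rw [wi_self S]; omega⟩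

theorem rprod_append (l l' : List ((Fin 3 × P') × P')) :
    rprod (l ++ l') = rprod l * rprod l' := by
  simp [rprod]

@[simp] theorem rprod_nil : rprod ([] : List ((Fin 3 × P') × P')) = 1 := rfl

theorem rprod_single (a : (Fin 3 × P') × P') : rprod [a] = a.2 := by simp [rprod]

theorem rprod_cons (a : (Fin 3 × P') × P') (l) : rprod (a :: l) = a.2 * rprod l := by
  simp [rprod]

theorem chain_sub {α : Type*} {r : α → α → Prop} {l l' : List α} (h : l.IsChain r)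
    (hl : l' <:+: l) : l'.IsChain r := by
  obtain ⟨p, q, rfl⟩ := hl
  exact (List.isChain_append.1 (List.isChain_append.1 h).1).2.1

theorem Valid.sub' {W : Set P'} {l l' : List ((Fin 3 × P') × P')} (h : Valid len Pz R W l)
    (hl : l' <:+: l) : Valid len Pz R W l' :=
  ⟨fun a ha => h.1 a (hl.subset ha), chain_sub h.2 hl⟩

theorem gk : S_GK := by
  intro P' _ len Pz R ρ S H W hW l
  induction l using List.reverseRecOn with
  | nil =>
    intro Y r hv x hx g hg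
    have hA := (hv.1 (Y, r) (by simp)).1
    simp only [rprod_nil, inv_one, one_mul] at hg
    have hb := base P' len Pz S W hW Y hA.1 x g hg
    rcases hx with hx | ⟨Y0, hx0, hY0, hne⟩
    · exact ⟨g, hb.1 hx, hg.1, by rw [wi_self S]; omega⟩
    · exact hb.2 Y0 (hne (Y, r) (by simp)) hY0 hx0
  | append_singleton l0 a ih =>
    intro Y r hv x hx g hg
    obtain ⟨Y1, r1⟩ := a
    have hv' : Valid len Pz R W (l0 ++ [(Y1, r1)]) :=
      hv.sub' (List.prefix_append _ _).isInfix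
    obtain ⟨g1, hg1⟩ := S.gate Y1 ((rprod l0)⁻¹ * x)
    obtain ⟨i1, hi1, hi1Y, hd1⟩ := ih Y1 r1 hv' x (by
      rcases hx with hx | ⟨Y0, hx0, hY0, hne⟩
      · exact Or.inl hx
      · refine Or.inr ⟨Y0, hx0, hY0, fun a ha => hne a ?_⟩
        rw [List.head?_append_of_ne_nil _ (by simp)]
        exact ha) g1 hg1
    obtain ⟨hA1, hr1, hr1'⟩ := hv'.1 (Y1, r1) (by simp)
    have hA := (hv.1 (Y, r) (by simp)).1
    have hx1 : (rprod (l0 ++ [(Y1, r1)]))⁻¹ * x = r1⁻¹ * ((rprod l0)⁻¹ * x) := by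
      rw [rprod_append, rprod_single]; group
    rw [hx1] at hg
    have hg1' := isGate_smul H (memRY_inv hr1) hg1
    have hne : ¬ SameR Pz Y1 Y := by
      have h2 := hv.2
      have h3 : [(Y1, r1), (Y, r)] <:+: l0 ++ [(Y1, r1)] ++ [(Y, r)] := by
        rw [List.append_assoc]
        exact (List.suffix_append _ _).isInfix
      have h4 := chain_sub h2 h3
      simpa using h4
    refine loc P' len Pz S W hW Y1 Y hne hA1.1 hA.1 _ _ _ hg1' hg ?_
    intro h hh hhY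
    have e1 := hA1.2 i1 hi1 h hh hi1Y hhY
    have e2 : ρ ≤ len (i1⁻¹ * (r1⁻¹ * i1)) :=
      rot_big S H (memRY_inv hr1) (by simpa using hr1') hi1Y
    have e3 := wi_tri S i1 h (r1⁻¹ * i1)
    have e4 := wi_tri S h (r1⁻¹ * g1) (r1⁻¹ * i1)
    rw [wi_smul] at e4
    rw [wi_comm S h (r1⁻¹ * g1)] at e4
    have e5 := H.eight
    change 2 ≤ len ((r1⁻¹ * g1)⁻¹ * h)
    omega

end

theorem gk_of (_ : S_LOC) (_ : S_BASE) : S_GK := gk

end TA
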