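import Pool.Agent.H98.TA.Win

/-!
Modules REPN, NCK.
-/

set_option linter.unusedVariables false

namespace TA

section
variable {P' : Type} [Group P'] {len : P' → ℕ} {Pz R : Fin 3 → Subgroup P'} {ρ : ℕ}

/-- elements of `N` preserve attached residues -/
theorem att_tr (S : SylGeom len Pz) {W : Set P'} {N : Subgroup P'} (M : Mill len Pz R W N)
    {n : P'} (hn : n ∈ N) {Y : Fin 3 × P'} (hY : Att len Pz W Y) :
    Att len Pz W (trR n Y) := by
  obtain ⟨⟨x, hx, hxY⟩, h2⟩ := hY
  refine ⟨⟨n * x, M.inv n hn x hx, inR_tr.2 hxY⟩, ?_⟩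
  intro a ha b hb haY hbY
  have := h2 (n⁻¹ * a) (M.inv _ (inv_mem hn) a ha) (n⁻¹ * b) (M.inv _ (inv_mem hn) b hb)
    (inR_tr'.1 haY) (inR_tr'.1 hbY)
  rwa [wi_smul] at this

theorem valid_snoc {W : Set P'} {l : List ((Fin 3 × P') × P')} {a : (Fin 3 × P') × P'}
    (h : Valid len Pz R W l) (ha : Att len Pz W a.1 ∧ MemRY R a.1 a.2 ∧ a.2 ≠ 1)
    (hl : ∀ b ∈ l.getLast?, ¬ SameR Pz b.1 a.1) : Valid len Pz R W (l ++ [a]) := by
  refine ⟨?_, ?_⟩
  · intro b hb
    rcases List.mem_append.1 hb with hb | hb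
    · exact h.1 b hb
    · rw [List.mem_singleton] at hb
      rw [hb]; exact ha
  · rw [List.isChain_append]
    refine ⟨h.2, List.isChain_singleton _, ?_⟩
    intro b hb c hc
    simp only [List.head?_cons, Option.mem_def, Option.some.injEq] at hc
    rw [← hc]
    exact hl b hb

/-- right multiplication by a rotation -/
theorem repn_step (S : SylGeom len Pz) (H : Rot len Pz R ρ) {W : Set P'} {N : Subgroup P'}
    (M : Mill len Pz R W N) {l : List ((Fin 3 × P') × P')} (hl : Valid len Pz R W l) {n : P'}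
    (hn : n ∈ N) {Y' : Fin 3 × P'} {r' : P'} (hY' : Att len Pz W Y') (hr' : MemRY R Y' r') :
    ∃ l', Valid len Pz R W l' ∧ ∃ n' ∈ N, rprod l * n * r' = rprod l' * n' := by
  by_cases h1 : r' = 1
  · exact ⟨l, hl, n, hn, by rw [h1, mul_one]⟩
  have hA := att_tr S M hn hY'
  have hm : MemRY R (trR n Y') (n * r' * n⁻¹) := memRY_tr hr'
  have hne : n * r' * n⁻¹ ≠ 1 := by
    intro h
    apply h1
    have : r' = n⁻¹ * (n * r' * n⁻¹) * n := by group
    rw [this, h]; simp
  induction l using List.reverseRecOn with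
  | nil =>
    refine ⟨[(trR n Y', n * r' * n⁻¹)], ?_, n, hn, ?_⟩
    · have := valid_snoc (a := (trR n Y', n * r' * n⁻¹)) hl ⟨hA, hm, hne⟩ (by simp)
      simpa using this
    · rw [rprod_single, rprod_nil]
      group
  | append_singleton l0 a _ =>
    obtain ⟨Y, r⟩ := a
    by_cases hs : SameR Pz Y (trR n Y')
    · have hl0 : Valid len Pz R W l0 := hl.sub' (List.prefix_append _ _).isInfix
      obtain ⟨hAY, hrY, hr1⟩ := hl.1 (Y, r) (by simp)
      have hm' : MemRY R Y (r * (n * r' * n⁻¹)) := memRY_mul hrY (memRY_same H hs.symm hm)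
      by_cases h2 : r * (n * r' * n⁻¹) = 1
      · refine ⟨l0, hl0, n, hn, ?_⟩
        rw [rprod_append, rprod_single]
        have : rprod l0 * (Y, r).2 * n * r' = rprod l0 * (r * (n * r' * n⁻¹)) * n := by
          simp only; group
        rw [this, h2, mul_one]
      · refine ⟨l0 ++ [(Y, r * (n * r' * n⁻¹))], ?_, n, hn, ?_⟩
        · refine valid_snoc hl0 ⟨hAY, hm', h2⟩ ?_
          intro b hb
          have h3 := (List.isChain_append.1 hl.2).2.2 b hb (Y, r) (by simp)
          exact h3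
        · rw [rprod_append, rprod_single, rprod_append, rprod_single]
          simp only; group
    · refine ⟨l0 ++ [(Y, r)] ++ [(trR n Y', n * r' * n⁻¹)], ?_, n, hn, ?_⟩
      · refine valid_snoc hl ⟨hA, hm, hne⟩ ?_
        intro b hb
        simp only [List.getLast?_append, List.getLast?_singleton, Option.some_or,
          Option.mem_def, Option.some.injEq] at hb
        rw [← hb]
        exact hs
      · rw [rprod_append (l0 ++ [(Y, r)]), rprod_single]
        simp only; group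

theorem repn : S_REPN := by
  intro P' _ len Pz R ρ S H W N M w hw
  unfold nextN at hw
  induction hw using Subgroup.closure_induction_right with
  | one =>
    exact ⟨[], ⟨by simp, List.isChain_nil⟩, 1, one_mem _, by simp⟩
  | mul_right x hx y hy ih =>
    obtain ⟨l, hl, n, hn, rfl⟩ := ih
    rcases hy with hy | ⟨Y, hY, hr⟩
    · exact ⟨l, hl, n * y, mul_mem hn hy, by rw [mul_assoc]⟩
    · exact repn_step S H M hl hn hY hr
  | mul_inv_cancel x hx y hy ih =>
    obtain ⟨l, hl, n, hn, rfl⟩ := ih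
    rcases hy with hy | ⟨Y, hY, hr⟩
    · exact ⟨l, hl, n * y⁻¹, mul_mem hn (inv_mem hy), by rw [mul_assoc]⟩
    · exact repn_step S H M hl hn hY (memRY_inv hr)

theorem nck : S_NCK := by
  intro P' _ len Pz R ρ S H W N M w hw hwN
  obtain ⟨l, hl, n, hn, rfl⟩ := repn P' len Pz R ρ S H W N M w hw
  rcases List.eq_nil_or_concat l with rfl | ⟨l0, a, rfl⟩
  · exact absurd (by simpa using hn) hwN
  obtain ⟨Y, r⟩ := a
  rw [List.concat_eq_append] at *
  obtain ⟨hA, hr, hr1⟩ := hl.1 (Y, r) (by simp)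
  simp only at hA hr hr1
  obtain ⟨g, hg⟩ := S.gate Y ((rprod l0)⁻¹ * 1)
  obtain ⟨i, hi, hiY, hgi⟩ := gk P' len Pz R ρ S H W M.conv l0 Y r hl 1 (Or.inl M.one) g hg
  obtain ⟨i', hi'⟩ := S.gate Y n
  have hnW : n ∈ W := by simpa using M.inv n hn 1 M.one
  have hi'W : i' ∈ W := (base P' len Pz S W M.conv Y hA.1 n i' hi').1 hnW
  have hri' := isGate_smul H hr hi'
  have e1 := rot_big S H hr hr1 hi'.1
  have e2 := hA.2 i hi i' hi'W hiY hi'.1
  have e3 := wi_tri S i' g (r * i')
  have e4 := wi_tri S i' i g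
  have e5 := H.eight
  have e6 := wi_comm S i' i
  have e7 := wi_comm S i g
  have hne : g ≠ r * i' := by
    intro h
    rw [h, wi_self S] at e3
    rw [← h] at e1 e3
    omega
  have hp := S.gate_path Y _ _ _ _ hg hri' hne
  rw [mul_one] at hp
  refine ⟨rprod l0 * g, g⁻¹ * (r * i'), (r * i')⁻¹ * (r * n), g⁻¹ * i', Y.1, ?_, ?_, ?_, ?_,
    ?_, ?_, ?_⟩
  · rw [rprod_append, rprod_single]
    simp only; group
  · have h1 : rprod (l0 ++ [(Y, r)]) * n = ((rprod l0)⁻¹)⁻¹ * (r * n) := by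
      rw [rprod_append, rprod_single]
      simp only; group
    rw [h1, hp, inv_inv]
  · exact inR_div hg.1 hri'.1
  · exact inR_div hg.1 hi'.1
  · omega
  · have := wi_tri S g i i'
    omega
  · have := memRY_conj H hr hg.1
    have e : g⁻¹ * (r * i') * (g⁻¹ * i')⁻¹ = g⁻¹ * r * g := by group
    rwa [e]

end

end TA
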